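import Pool.Agent.X117.Sup2

set_option autoImplicit false

/-!
# MP_ca0a54_nt: zeta and its derivatives near close zeros

Let `0 < k ≤ 2` and `A ≥ 1`. For `n ≥ 0`, `0 < r ≤ 1` and large `T` consider the zeros `ρ` of zeta with `T ≤ Im ρ ≤ 2T` and
`|Re ρ - 1/2| ≤ A / log T` such that the closed disc of radius `r / log T` around `ρ` contains at least `n` zeros, counted
with multiplicity. Uniformly in `n` and `r`, the sum over these zeros (with multiplicity)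

* of the `2k`-th powers of the maxima of `|ζ|` on the discs is at most `C r^(2kn) T (log T)^(k²+1)`;
* of the `2k`-th powers of the `|ζ^(j)(ρ)|` is at most `C r^(2k(n-j)) T (log T)^(k²+2kj+1)`.

For `n = 2`, `j = 1`: the sum of the `|ζ'(ρ)|^(2k)` over the zeros with another zero at distance at most `r / log T` is at
most `C r^(2k) T (log T)^((k+1)²)`.
-/

namespace Pool.Agent.Results.MP_ca0a54_nt.DerivativeAtClosePairs

open Filter Topology

/-- The multiplicity of the zero `ρ` of zeta. -/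
noncomputable def mult (ρ : ℂ) : ℕ := analyticOrderNatAt riemannZeta ρ

/-- The closed disc of radius `δ` around `ρ` contains at least `n` zeros of zeta, counted with multiplicity. -/
def Crowded (n : ℕ) (δ : ℝ) (ρ : ℂ) : Prop :=
  ∃ S : Finset ℂ, (∀ z ∈ S, riemannZeta z = 0 ∧ ‖z - ρ‖ ≤ δ) ∧ n ≤ ∑ z ∈ S, mult z

/-- The zeros `ρ` with `T ≤ Im ρ ≤ 2T`, `|Re ρ - 1/2| ≤ A / log T` and at least `n` zeros at distance at most `r / log T`. -/
def zeros (A : ℝ) (n : ℕ) (r T : ℝ) : Set ℂ :=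
  {ρ | riemannZeta ρ = 0 ∧ |ρ.re - 1 / 2| ≤ A / Real.log T ∧ T ≤ ρ.im ∧ ρ.im ≤ 2 * T ∧
    Crowded n (r / Real.log T) ρ}

/-- The largest value of `|ζ|` on the closed disc of radius `δ` around `ρ`. -/
noncomputable def peak (δ : ℝ) (ρ : ℂ) : ℝ := sSup ((fun s => ‖riemannZeta s‖) '' Metric.closedBall ρ δ)

/-- The sum of the `2k`-th powers of the maxima on the discs, with values in `[0, ∞]`. -/
noncomputable def peaks (k A : ℝ) (n : ℕ) (r T : ℝ) : ENNReal :=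
  ∑' ρ : zeros A n r T, ENNReal.ofReal (mult ρ * peak (r / Real.log T) ρ ^ (2 * k))

/-- The sum of the `|ζ^(j)(ρ)|^(2k)`, with values in `[0, ∞]`. -/
noncomputable def derivs (k A : ℝ) (j n : ℕ) (r T : ℝ) : ENNReal :=
  ∑' ρ : zeros A n r T, ENNReal.ofReal (mult ρ * ‖iteratedDeriv j riemannZeta ρ‖ ^ (2 * k))

lemma sum_bound {S : Set ℂ} {f : ℂ → ℝ} {B : ℝ} (hf : ∀ z, 0 ≤ f z)
    (h : ∀ Z : Finset ℂ, (∀ z ∈ Z, z ∈ S) → ∑ z ∈ Z, f z ≤ B) :
    ∑' z : S, ENNReal.ofReal (f z) ≤ ENNReal.ofReal B := by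
  classical
  refine ENNReal.summable.tsum_le_of_sum_le fun Z => ?_
  rw [← ENNReal.ofReal_sum_of_nonneg fun _ _ => hf _]
  refine ENNReal.ofReal_le_ofReal ?_
  have e : ∑ z ∈ Z, f z = ∑ z ∈ Z.map (Function.Embedding.subtype _), f z := by
    rw [Finset.sum_map]
    rfl
  rw [e]
  refine h _ fun z hz => ?_
  rw [Finset.mem_map] at hz
  obtain ⟨y, -, rfl⟩ := hz
  exact y.2

theorem result : ∀ k A : ℝ, 0 < k → k ≤ 2 → 1 ≤ A →
    (∃ C : ℝ, ∀ᶠ T : ℝ in atTop, ∀ (n : ℕ) (r : ℝ), 0 < r → r ≤ 1 →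
      peaks k A n r T ≤ ENNReal.ofReal (C * r ^ (2 * k * n) * (T * Real.log T ^ (k ^ 2 + 1)))) ∧
    ∀ j : ℕ, ∃ C : ℝ, ∀ᶠ T : ℝ in atTop, ∀ (n : ℕ) (r : ℝ), 0 < r → r ≤ 1 →
      derivs k A j n r T ≤
        ENNReal.ofReal (C * r ^ (2 * k * (n - j)) * (T * Real.log T ^ (k ^ 2 + 2 * k * j + 1))) := by
  intro k A hk hk2 hA
  constructor
  · obtain ⟨C, -, h⟩ := Pool.Agent.X117.SZ.crowd_sum hk hk2 hA
    refine ⟨C, ?_⟩
    filter_upwards [h] with T hT n r hr0 hr1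
    refine sum_bound (S := zeros A n r T) (f := fun ρ => (mult ρ : ℝ) * peak (r / Real.log T) ρ ^ (2 * k))
      (fun z => mul_nonneg (Nat.cast_nonneg _)
        (Real.rpow_nonneg (Pool.Agent.X117.SZ.top_nonneg riemannZeta z _) _)) fun Z hZ => ?_
    exact hT n r hr0 hr1 Z hZ
  · intro j
    obtain ⟨C, -, h⟩ := Pool.Agent.X117.SZ.crowd_deriv hk hk2 hA j
    refine ⟨C, ?_⟩
    filter_upwards [h] with T hT n r hr0 hr1
    refine sum_bound (S := zeros A n r T) (f := fun ρ => (mult ρ : ℝ) * ‖iteratedDeriv j riemannZeta ρ‖ ^ (2 * k))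
      (fun z => mul_nonneg (Nat.cast_nonneg _) (Real.rpow_nonneg (norm_nonneg _) _)) fun Z hZ => ?_
    exact hT n r hr0 hr1 Z hZ

end Pool.Agent.Results.MP_ca0a54_nt.DerivativeAtClosePairs
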