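import Pool.Agent.X10.ML.GapsFin

set_option autoImplicit false

/-!
# Powers `θ ^ (c ^ n)` that run through small gaps between zeta zeros

Mills' theorem gives `θ, c > 1` such that the integer part of `θ ^ (c ^ n)` is prime for every `n`.  Here the
primes are replaced by the ordinates of zeta zeros which are followed by a small gap, and the powers come much
closer to them than their mean spacing: for every `c > 1`, every `λ > 2c / (3c - 1)` (for `c > 1000` every
`λ > 9/16`) and all tolerances `δ_n ≥ exp (-o(c ^ n))`, the `θ` such that for all large `n` the number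
`θ ^ (c ^ n)` is within `δ_n` of an ordinate `γ_k` with `γ_(k+1) - γ_k ≤ λ 2π / log γ_k` have Hausdorff dimension
`1` in each interval of `(1, ∞)`.
-/

namespace Pool.Agent.Results.MP_ca0a54_nt.MillsSequencesAtSmallGaps

open Filter

/-- multiplicity of `s` as a zero of the Riemann zeta function (order of vanishing at `s`) -/
noncomputable def zmult (s : ℂ) : ℕ := analyticOrderNatAt riemannZeta s

/-- the number of nontrivial zeros of `ζ` with ordinate in `(0, t]`, with multiplicity -/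
noncomputable def NZ (t : ℝ) : ℕ :=
  ∑ᶠ s ∈ {s : ℂ | riemannZeta s = 0 ∧ 0 < s.re ∧ s.re < 1 ∧ 0 < s.im ∧ s.im ≤ t}, zmult s

/-- for `n ≥ 1`: the `n`-th positive ordinate `γ_n` of a nontrivial zero of `ζ`, the ordinates
being listed in nondecreasing order and repeated according to multiplicity -/
noncomputable def ord (n : ℕ) : ℝ := sInf {t : ℝ | n ≤ NZ t}

/-- the ordinates `γ_n` (`n ≥ 1`) with `γ_(n+1) - γ_n ≤ lam (2π / log γ_n)` -/
def SmallGap (lam : ℝ) : Set ℝ :=
  {t | ∃ n : ℕ, 1 ≤ n ∧ t = ord n ∧ ord (n + 1) - ord n ≤ lam * (2 * Real.pi / Real.log (ord n))}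

/-- Let `c > 1`, and let `lam > 2c / (3c - 1)`, or `c > 1000` and `lam > 9/16`.  Let the `δ n > 0` be such that
`δ n ≥ exp (-ε c ^ n)` for all large `n`, for each `ε > 0`.  Then for every open set `U` that meets `(1, ∞)` the
`θ ∈ U`, `θ > 1`, such that for all large `n` there is `a ∈ SmallGap lam` with `|θ ^ (c ^ n) - a| ≤ δ n` form a set
of Hausdorff dimension `1`. -/
theorem result (c lam : ℝ) (hc : 1 < c)
    (hlam : 2 * c / (3 * c - 1) < lam ∨ (1000 < c ∧ 9 / 16 < lam)) (δ : ℕ → ℝ) (hδ0 : ∀ n, 0 < δ n)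
    (hδ : ∀ ε : ℝ, 0 < ε → ∀ᶠ n : ℕ in atTop, Real.exp (-(ε * c ^ n)) ≤ δ n)
    (U : Set ℝ) (hU : IsOpen U) (hne : (U ∩ Set.Ioi 1).Nonempty) :
    dimH {θ : ℝ | θ ∈ U ∧ 1 < θ ∧ ∃ N : ℕ, ∀ n : ℕ, N ≤ n →
      ∃ a ∈ SmallGap lam, |θ ^ (c ^ n) - a| ≤ δ n} = 1 :=
  Pool.Agent.X10.ML.mills_gaps c lam hc hlam δ hδ0 hδ U hU hne

end Pool.Agent.Results.MP_ca0a54_nt.MillsSequencesAtSmallGaps
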