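import Pool.Agent.Results.MP_ca0a54_nt.SmallGapsAtPowers
import Pool.Agent.X283.DA.LogDy

/-!
# Small gaps between zeta zeros at the denominators of good approximations

Unconditionally, for all `d`, `B` there is `C` such that, with `D = d B + 44`, for all positive weights `η_1, ..., η_d` with sum `1`,
all `y ∈ ℝ^d` and almost all `x ∈ ℝ^d`: for every large natural number `q` such that `q x_j` is within `q ^ (-η_j) (log q) ^ B` of
`y_j` modulo `1` for all `j`, EVERY interval `[q, q + H]`, `(log q) ^ D ≤ H ≤ q / 2`, contains two consecutive ordinates with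
difference at most `4π / log (q³ H) (1 + C log log q / log q)`. In particular the difference is less than `c` times the mean spacing
if `H ≥ q ^ θ (log q) ^ D`, `c > 2 / (3 + θ)`.
-/

set_option autoImplicit false

open Filter MeasureTheory Topology

namespace Pool.Agent.Results.MP_ca0a54_nt.SmallGapsAtDenominators

open Pool.Agent.Results.MP_ca0a54_nt.AlmostAllIntervals
open Pool.Agent.Results.MP_ca0a54_nt.SmallGapsAtPowers
open Pool.Agent.X283.DA

/-- the bound at `t ∈ [q, q + 1]` and the bound at `q` -/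
lemma gb_down {C H q t : ℝ} (hC : 0 < C) (hq : 100 ≤ q) (h1 : 1 ≤ Real.log (Real.log q))
    (hqt : q ≤ t) (htq : t ≤ q + 1) (hH : 2 ≤ H) :
    gb C (H - 1) t ≤ gb (1 + 4 * C) H q := by
  have hpi := Real.pi_pos
  have hq0 : 0 < q := by linarith
  have he : (2 : ℝ) < Real.exp 1 := by linarith [Real.exp_one_gt_d9]
  have hlq1 : Real.exp 1 ≤ Real.log q := by
    have h2 : 0 < Real.log q := Real.log_pos (by linarith)
    rwa [Real.le_log_iff_exp_le h2] at h1
  have hlq : 2 < Real.log q := by linarith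
  have hlt : Real.log q ≤ Real.log t := Real.log_le_log hq0 hqt
  have hlt2 : Real.log t ≤ 2 * Real.log q := by
    have : Real.log t ≤ Real.log (q ^ 2) := Real.log_le_log (by linarith) (by nlinarith)
    rwa [Real.log_pow] at this
  have hl2 : Real.log 2 < 0.7 := by linarith [Real.log_two_lt_d9]
  have hl2' : 0 < Real.log 2 := Real.log_pos (by norm_num)
  have hllt : Real.log (Real.log t) ≤ 2 * Real.log (Real.log q) := by
    have e1 : Real.log (Real.log t) ≤ Real.log (2 * Real.log q) :=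
      Real.log_le_log (by linarith) hlt2
    rw [Real.log_mul (by norm_num) (by linarith)] at e1
    linarith
  set L : ℝ := Real.log (q ^ 3 * H) with hL
  set L' : ℝ := Real.log (t ^ 3 * (H - 1)) with hL'
  have hLq : 3 * Real.log q ≤ L := by
    have e1 : Real.log (q ^ 3) ≤ L := by
      apply Real.log_le_log (by positivity)
      exact le_mul_of_one_le_right (by positivity) (by linarith)
    rwa [Real.log_pow] at e1
  have hLL : L ≤ L' + Real.log 2 := by
    have hH1 : 0 < H - 1 := by linarith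
    have ht0 : 0 < t := by linarith
    rw [hL', ← Real.log_mul (by positivity) (by norm_num)]
    apply Real.log_le_log (by positivity)
    have e1 : q ^ 3 ≤ t ^ 3 := pow_le_pow_left₀ hq0.le hqt 3
    calc q ^ 3 * H ≤ t ^ 3 * (2 * (H - 1)) := by
          apply mul_le_mul e1 (by linarith) (by linarith) (by positivity)
      _ = t ^ 3 * (H - 1) * 2 := by ring
  have hL0 : 0 < L := by linarith
  have hL'0 : 0 < L' := by linarith
  have e1 : 4 * Real.pi / L' ≤ 4 * Real.pi / L * (1 + 1 / Real.log q) := by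
    rw [div_mul_eq_mul_div, div_le_div_iff₀ hL'0 hL0]
    have e2 : L ≤ (1 + 1 / Real.log q) * L' := by
      have e3 : 1 ≤ 1 / Real.log q * L' := by
        rw [one_div_mul_eq_div, le_div_iff₀ (by linarith)]
        linarith
      linarith
    calc 4 * Real.pi * L ≤ 4 * Real.pi * ((1 + 1 / Real.log q) * L') :=
          mul_le_mul_of_nonneg_left e2 (by positivity)
      _ = 4 * Real.pi * (1 + 1 / Real.log q) * L' := by ring
  set y : ℝ := Real.log (Real.log q) / Real.log q with hy
  have hy0 : 0 < y := by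
    rw [hy]
    apply div_pos <;> linarith
  have hy1 : y ≤ 1 := by
    rw [hy, div_le_one (by linarith)]
    linarith [Real.log_le_sub_one_of_pos (show 0 < Real.log q by linarith)]
  have f1 : 1 / Real.log q ≤ y := by
    rw [hy]
    exact div_le_div_of_nonneg_right h1 (by linarith)
  have f2 : Real.log (Real.log t) / Real.log t ≤ 2 * y := by
    rw [hy, mul_div_assoc']
    exact div_le_div₀ (by linarith) hllt (by linarith) hlt
  have g3 : 0 ≤ 1 + C * (Real.log (Real.log t) / Real.log t) := by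
    have e4 : 0 ≤ Real.log (Real.log t) := Real.log_nonneg (by linarith)
    have e5 : 0 < Real.log t := by linarith
    positivity
  have f3 : (1 + 1 / Real.log q) * (1 + C * (Real.log (Real.log t) / Real.log t)) ≤
      1 + (1 + 4 * C) * y := by
    have g1 : 1 + 1 / Real.log q ≤ 1 + y := by linarith
    have g2 : 1 + C * (Real.log (Real.log t) / Real.log t) ≤ 1 + C * (2 * y) := by
      linarith [mul_le_mul_of_nonneg_left f2 hC.le]
    calc (1 + 1 / Real.log q) * (1 + C * (Real.log (Real.log t) / Real.log t)) ≤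
          (1 + y) * (1 + C * (2 * y)) := mul_le_mul g1 g2 g3 (by linarith)
      _ ≤ 1 + (1 + 4 * C) * y := by
          have : C * y * y ≤ C * y * 1 := mul_le_mul_of_nonneg_left hy1 (by positivity)
          nlinarith
  unfold gb
  calc 4 * Real.pi / L' * (1 + C * (Real.log (Real.log t) / Real.log t)) ≤
        4 * Real.pi / L * (1 + 1 / Real.log q) *
          (1 + C * (Real.log (Real.log t) / Real.log t)) := mul_le_mul_of_nonneg_right e1 g3
    _ = 4 * Real.pi / L * ((1 + 1 / Real.log q) *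
          (1 + C * (Real.log (Real.log t) / Real.log t))) := by ring
    _ ≤ 4 * Real.pi / L * (1 + (1 + 4 * C) * y) :=
        mul_le_mul_of_nonneg_left f3 (by positivity)

/-- small gaps near `t ∈ [q, q + 1]` give small gaps near `q` -/
lemma smallGaps_down (D : ℕ) {C : ℝ} (hC : 0 < C) : ∃ q₀ : ℝ, ∀ q t : ℝ, q₀ ≤ q → q ≤ t → t ≤ q + 1 →
    SmallGaps D C t → SmallGaps (D + 1) (1 + 4 * C) q := by
  refine ⟨max (max 100 (Real.exp (Real.exp 1))) (Real.exp (2 ^ D + 2)), fun q t hq hqt htq h => ?_⟩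
  have hq100 : 100 ≤ q := (le_max_left _ _).trans ((le_max_left _ _).trans hq)
  have hqe : Real.exp (Real.exp 1) ≤ q := (le_max_right _ _).trans ((le_max_left _ _).trans hq)
  have hqD : Real.exp (2 ^ D + 2) ≤ q := (le_max_right _ _).trans hq
  have hq0 : 0 < q := by linarith
  have he1 : Real.exp 1 ≤ Real.log q := by rwa [Real.le_log_iff_exp_le hq0]
  have he : (2 : ℝ) < Real.exp 1 := by linarith [Real.exp_one_gt_d9]
  have hl0 : 0 < Real.log q := by linarith
  have hll : 1 ≤ Real.log (Real.log q) := by rwa [Real.le_log_iff_exp_le hl0]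
  have hlD : (2 : ℝ) ^ D + 2 ≤ Real.log q := by rwa [Real.le_log_iff_exp_le hq0]
  have hlt : Real.log q ≤ Real.log t := Real.log_le_log hq0 hqt
  have hlt2 : Real.log t ≤ 2 * Real.log q := by
    have : Real.log t ≤ Real.log (q ^ 2) := Real.log_le_log (by linarith) (by nlinarith)
    rwa [Real.log_pow] at this
  have h1D : (1 : ℝ) ≤ Real.log q ^ D := one_le_pow₀ (by linarith)
  have h2D : (1 : ℝ) ≤ 2 ^ D := one_le_pow₀ (by norm_num)
  intro H hH1 hH2
  have e1 : Real.log t ^ D + 2 ≤ H := by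
    have e2 : Real.log t ^ D ≤ 2 ^ D * Real.log q ^ D := by
      rw [← mul_pow]
      exact pow_le_pow_left₀ (by linarith) hlt2 D
    have e3 : ((2 : ℝ) ^ D + 2) * Real.log q ^ D ≤ Real.log q ^ (D + 1) := by
      rw [pow_succ, mul_comm]
      exact mul_le_mul_of_nonneg_left hlD (by linarith)
    linarith
  have h0 : 0 ≤ Real.log t ^ D := by
    have : 0 ≤ Real.log t := by linarith
    positivity
  obtain ⟨n, n1, n2, n3, n4, n5⟩ := h (H - 1) (by linarith) (by linarith)
  exact ⟨n, n1, by linarith, n3, by linarith, n5.trans (gb_down hC hq100 hll hqt htq (by linarith))⟩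

/-- the exceptional natural numbers are rare -/
lemma sparse_bad (b : ℕ) : ∃ C : ℝ, 0 < C ∧ LogSparse {q : ℕ | ¬ SmallGaps (b + 42) C q} b := by
  obtain ⟨C, X0, hC, hvol⟩ := vol_bad b
  obtain ⟨q₀, hq₀⟩ := smallGaps_down (b + 41) hC
  refine ⟨1 + 4 * C, by positivity, ?_⟩
  refine LogSparse.of_dyadic (Nat.cast_nonneg b) 3 (⌈X0⌉₊ + ⌈q₀⌉₊ + 3) fun X hX => ?_
  have hX0 : X0 ≤ X := (Nat.le_ceil X0).trans (by exact_mod_cast (by omega : ⌈X0⌉₊ ≤ X))
  have hXq : q₀ ≤ X := (Nat.le_ceil q₀).trans (by exact_mod_cast (by omega : ⌈q₀⌉₊ ≤ X))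
  have hX3 : (3 : ℝ) ≤ X := by exact_mod_cast (by omega : 3 ≤ X)
  have hl : 0 < Real.log X := Real.log_pos (by linarith)
  have h1 := card_of_volume (E := {x : ℝ | ¬ SmallGaps (b + 41) C x})
    (P := {q : ℕ | ¬ SmallGaps (b + 42) (1 + 4 * C) q}) (X := X)
    (V := X * (3 / Real.log X ^ b)) (by positivity) ?_ (hvol X hX0)
  · refine h1.trans (le_of_eq ?_)
    rw [Real.rpow_neg hl.le, Real.rpow_natCast]
    ring
  · intro q hq hXq' _ t ht1 ht2 hcon
    apply hq
    refine hq₀ q t (hXq.trans ?_) ht1 ht2.le hcon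
    exact_mod_cast hXq'

/-- **Theorem.** Small gaps between zeta zeros at the denominators of good approximations. -/
theorem result (d B : ℕ) : ∃ C : ℝ, 0 < C ∧
    ∀ η y : Fin d → ℝ, (∀ j, 0 < η j) → ∑ j, η j = 1 → ∀ᵐ x : Fin d → ℝ,
      (∃ q₀ : ℕ, ∀ q : ℕ, q₀ ≤ q →
        (∀ j, ∃ p : ℤ, |(q : ℝ) * x j - p - y j| ≤ (q : ℝ) ^ (-η j) * Real.log q ^ B) →
          SmallGaps (d * B + 44) C q) ∧
      (∀ θ c : ℝ, 0 ≤ θ → 2 / (3 + θ) < c → ∃ q₀ : ℕ, ∀ q : ℕ, q₀ ≤ q →
        (∀ j, ∃ p : ℤ, |(q : ℝ) * x j - p - y j| ≤ (q : ℝ) ^ (-η j) * Real.log q ^ B) →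
          SmallerThan (d * B + 44) θ c q) := by
  obtain ⟨C, hC, hP⟩ := sparse_bad (d * B + 2)
  refine ⟨C, hC, fun η y hη hηs => ?_⟩
  have hP' : LogSparse {q : ℕ | ¬ SmallGaps (d * B + 44) C q} (d * B + 2) := by
    have e : (((d * B + 2 : ℕ)) : ℝ) = (d * B + 2 : ℝ) := by push_cast; ring
    rw [← e]
    exact hP
  filter_upwards [ae_simultaneous_pow d B hP' η y hη hηs] with x hx
  obtain ⟨q₀, hq₀⟩ := hx
  have hs : ∀ q : ℕ, q₀ ≤ q →
      (∀ j, ∃ p : ℤ, |(q : ℝ) * x j - p - y j| ≤ (q : ℝ) ^ (-η j) * Real.log q ^ B) →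
        SmallGaps (d * B + 44) C q := by
    intro q hq hcl
    by_contra hcon
    exact hq₀ q hq hcl hcon
  refine ⟨⟨q₀, hs⟩, fun θ c hθ hc => ?_⟩
  obtain ⟨X1, hX1⟩ := smaller_of (D := d * B + 44) hC hθ hc
  refine ⟨max q₀ ⌈X1⌉₊, fun q hq hcl => hX1 q ?_ (hs q ((le_max_left _ _).trans hq) hcl)⟩
  exact (Nat.le_ceil X1).trans (by exact_mod_cast (le_max_right _ _).trans hq)

end Pool.Agent.Results.MP_ca0a54_nt.SmallGapsAtDenominators
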