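import Pool.Agent.Results.MP_ca0a54_nt.AlmostAllIntervals
import Pool.Agent.X16.ZP.D

/-!
# Small gaps between zeta zeros within a power of the logarithm of `t ^ n`, for almost every real number `t`

Unconditionally, for every `a > 0` there are `D`, `C` such that, if `κ_n ≥ n ^ a` for large `n`, for almost all real `t > 1` and all
large `n`, with `x = t ^ κ_n`: EVERY interval `[x, x + H]`, `(log x) ^ D ≤ H ≤ x / 2`, contains two consecutive ordinates with
difference at most `4π / log (x³ H) (1 + C log log x / log x)`. In particular for every `0 ≤ θ < 1` and `c > 2 / (3 + θ)` the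
difference is less than `c` times the mean spacing `2π / log x` if `H ≥ x ^ θ (log x) ^ D`; for `θ = 0`: every `c > 2 / 3`, in
intervals `[x, x + (log x) ^ D]`. The starting result `AlmostAllIntervals` is about almost all intervals.
-/

set_option autoImplicit false

open Filter MeasureTheory Topology

namespace Pool.Agent.Results.MP_ca0a54_nt.SmallGapsAtPowers

open Pool.Agent.Results.MP_ca0a54_nt.AlmostAllIntervals

/-- every interval `[x, x + H]` with `(log x) ^ D ≤ H ≤ x / 2` contains two consecutive ordinates with difference at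
most `gb C H x = 4π / log (x³ H) (1 + C log log x / log x)` -/
def SmallGaps (D : ℕ) (C x : ℝ) : Prop :=
  ∀ H : ℝ, Real.log x ^ D ≤ H → H ≤ x / 2 → ∃ n : ℕ, 1 ≤ n ∧ x ≤ ord n ∧ ord n ≤ ord (n + 1) ∧
    ord (n + 1) ≤ x + H ∧ ord (n + 1) - ord n ≤ gb C H x

/-- every interval `[x, x + H]` with `x ^ θ (log x) ^ D ≤ H ≤ x / 2` contains two consecutive ordinates with
difference less than `c` times the mean spacing -/
def SmallerThan (D : ℕ) (θ c x : ℝ) : Prop :=
  ∀ H : ℝ, x ^ θ * Real.log x ^ D ≤ H → H ≤ x / 2 → ∃ n : ℕ, 1 ≤ n ∧ x ≤ ord n ∧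
    ord n ≤ ord (n + 1) ∧ ord (n + 1) ≤ x + H ∧ ord (n + 1) - ord n < c * (2 * Real.pi / Real.log x)

lemma gb_le {C h H X x : ℝ} (hC : 0 < C) (hX : 100 ≤ X) (h1 : 1 ≤ Real.log (Real.log X))
    (hx1 : X ≤ x) (hx2 : x ≤ 2 * X) (hh : 1 ≤ h) (hH : h ≤ H) (hH2 : H ≤ 2 * h) :
    gb C h X ≤ gb (2 + 6 * C) H x := by
  have hpi := Real.pi_pos
  have hlX1 : Real.exp 1 ≤ Real.log X := by
    have h2 : 0 < Real.log X := Real.log_pos (by linarith)
    rwa [Real.le_log_iff_exp_le h2] at h1
  have he : (2 : ℝ) < Real.exp 1 := by linarith [Real.exp_one_gt_d9]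
  have hlX : 2 < Real.log X := by linarith
  have hlx : Real.log X ≤ Real.log x := Real.log_le_log (by linarith) hx1
  have hlx2 : Real.log x ≤ 2 * Real.log X := by
    have : Real.log x ≤ Real.log (X ^ 2) := Real.log_le_log (by linarith) (by nlinarith)
    rwa [Real.log_pow] at this
  have hllx : Real.log (Real.log X) ≤ Real.log (Real.log x) := Real.log_le_log (by linarith) hlx
  have hl16 : Real.log 16 < 3 := by
    have : Real.log 16 = 4 * Real.log 2 := by
      rw [show (16 : ℝ) = 2 ^ 4 by norm_num, Real.log_pow]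
      norm_num
    linarith [Real.log_two_lt_d9]
  set L : ℝ := Real.log (X ^ 3 * h) with hL
  set L' : ℝ := Real.log (x ^ 3 * H) with hL'
  have hX3 : X ^ 3 ≤ X ^ 3 * h := le_mul_of_one_le_right (by positivity) hh
  have hLX : 3 * Real.log X ≤ L := by
    have : Real.log (X ^ 3) ≤ L := Real.log_le_log (by positivity) hX3
    rwa [Real.log_pow] at this
  have hx0 : 0 < x := by linarith
  have hH0 : 0 < H := by linarith
  have hLL : L' ≤ L + Real.log 16 := by
    rw [hL, ← Real.log_mul (by positivity) (by norm_num)]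
    apply Real.log_le_log (by positivity)
    have e1 : x ^ 3 ≤ (2 * X) ^ 3 := pow_le_pow_left₀ (by linarith) hx2 3
    calc x ^ 3 * H ≤ (2 * X) ^ 3 * (2 * h) := by gcongr
      _ = X ^ 3 * h * 16 := by ring
  have hL'0 : 0 < L' := by
    apply Real.log_pos
    have e1 : (1 : ℝ) < x ^ 3 := one_lt_pow₀ (by linarith) (by norm_num)
    nlinarith
  have hL0 : 0 < L := by linarith
  -- the main factor
  have e1 : 4 * Real.pi / L ≤ 4 * Real.pi / L' * (1 + 1 / Real.log X) := by
    rw [div_mul_eq_mul_div, div_le_div_iff₀ hL0 hL'0]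
    have e2 : L' ≤ (1 + 1 / Real.log X) * L := by
      have e3 : 3 ≤ 1 / Real.log X * L := by
        rw [one_div_mul_eq_div, le_div_iff₀ (by linarith)]
        linarith
      nlinarith
    calc 4 * Real.pi * L' ≤ 4 * Real.pi * ((1 + 1 / Real.log X) * L) :=
          mul_le_mul_of_nonneg_left e2 (by positivity)
      _ = 4 * Real.pi * (1 + 1 / Real.log X) * L := by ring
  set y : ℝ := Real.log (Real.log x) / Real.log x with hy
  have hy0 : 0 < y := by
    rw [hy]
    apply div_pos <;> linarith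
  have hy1 : y ≤ 1 := by
    rw [hy, div_le_one (by linarith)]
    linarith [Real.log_le_sub_one_of_pos (show 0 < Real.log x by linarith)]
  have f1 : 1 / Real.log X ≤ 2 * y := by
    rw [hy, mul_div_assoc', div_le_div_iff₀ (by linarith) (by linarith)]
    nlinarith
  have f2 : Real.log (Real.log X) / Real.log X ≤ 2 * y := by
    rw [hy, mul_div_assoc', div_le_div_iff₀ (by linarith) (by linarith)]
    nlinarith
  have f3 : (1 + 1 / Real.log X) * (1 + C * (Real.log (Real.log X) / Real.log X)) ≤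
      1 + (2 + 6 * C) * y := by
    have g1 : 1 + 1 / Real.log X ≤ 1 + 2 * y := by linarith
    have g2 : 1 + C * (Real.log (Real.log X) / Real.log X) ≤ 1 + C * (2 * y) := by
      linarith [mul_le_mul_of_nonneg_left f2 hC.le]
    have g3 : 0 ≤ 1 + C * (Real.log (Real.log X) / Real.log X) := by
      have : 0 < Real.log (Real.log X) / Real.log X := by
        apply div_pos <;> linarith
      positivity
    calc (1 + 1 / Real.log X) * (1 + C * (Real.log (Real.log X) / Real.log X)) ≤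
          (1 + 2 * y) * (1 + C * (2 * y)) := mul_le_mul g1 g2 g3 (by linarith)
      _ ≤ 1 + (2 + 6 * C) * y := by
          have : C * y * y ≤ C * y * 1 := mul_le_mul_of_nonneg_left hy1 (by positivity)
          nlinarith
  unfold gb
  have g3 : 0 ≤ 1 + C * (Real.log (Real.log X) / Real.log X) := by
    have : 0 < Real.log (Real.log X) / Real.log X := by
      apply div_pos <;> linarith
    positivity
  calc 4 * Real.pi / L * (1 + C * (Real.log (Real.log X) / Real.log X)) ≤
        4 * Real.pi / L' * (1 + 1 / Real.log X) *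
          (1 + C * (Real.log (Real.log X) / Real.log X)) := mul_le_mul_of_nonneg_right e1 g3
    _ = 4 * Real.pi / L' * ((1 + 1 / Real.log X) *
          (1 + C * (Real.log (Real.log X) / Real.log X))) := by ring
    _ ≤ 4 * Real.pi / L' * (1 + (2 + 6 * C) * y) :=
        mul_le_mul_of_nonneg_left f3 (by positivity)

/-- the measure of the exceptional numbers in `[X, 2X]` -/
lemma vol_bad (b : ℕ) : ∃ C X0 : ℝ, 0 < C ∧ ∀ X : ℝ, X0 ≤ X →
    volume ({x : ℝ | ¬ SmallGaps (b + 41) C x} ∩ Set.Icc X (2 * X)) ≤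
      ENNReal.ofReal (X * (3 / Real.log X ^ b)) := by
  obtain ⟨C0, T0, hC0, h⟩ := AlmostAllIntervals.result.1 (b + 1)
  refine ⟨2 + 6 * C0, max T0 (max 100 (Real.exp (Real.exp 1))), by positivity, fun X hX => ?_⟩
  have hXT : T0 ≤ X := (le_max_left _ _).trans hX
  have hX100 : 100 ≤ X := ((le_max_left _ _).trans (le_max_right _ _)).trans hX
  have hXe : Real.exp (Real.exp 1) ≤ X := ((le_max_right _ _).trans (le_max_right _ _)).trans hX
  have hX0 : 0 < X := by linarith
  have he1 : Real.exp 1 ≤ Real.log X := by rwa [Real.le_log_iff_exp_le hX0]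
  have he : (2 : ℝ) < Real.exp 1 := by linarith [Real.exp_one_gt_d9]
  have hl0 : 0 < Real.log X := by linarith
  have hll : 1 ≤ Real.log (Real.log X) := by rwa [Real.le_log_iff_exp_le hl0]
  have hl2 : 0 < Real.log 2 := Real.log_pos (by norm_num)
  set I : ℕ := ⌊Real.log X / Real.log 2⌋₊ with hI
  set E : ℕ → Set ℝ := fun i => {t : ℝ | X ≤ t ∧ t ≤ 2 * X ∧
    ¬ ∃ n : ℕ, 1 ≤ n ∧ t ≤ ord n ∧ ord n ≤ ord (n + 1) ∧ ord (n + 1) ≤ t + 2 ^ i ∧
      ord (n + 1) - ord n ≤ gb C0 (2 ^ i) X} with hE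
  have hsub : {x : ℝ | ¬ SmallGaps (b + 41) (2 + 6 * C0) x} ∩ Set.Icc X (2 * X) ⊆
      ⋃ i ∈ Finset.range (I + 1),
        (if Real.log X ^ (b + 1 + 39) ≤ 2 ^ i ∧ (2 : ℝ) ^ i ≤ X then E i else ∅) := by
    rintro x ⟨hx, hx1, hx2⟩
    by_contra hcon
    apply hx
    intro H hH1 hH2
    have hlx : Real.log X ≤ Real.log x := Real.log_le_log hX0 hx1
    have hH0 : 1 ≤ H := by
      refine le_trans ?_ hH1
      exact one_le_pow₀ (by linarith)
    obtain ⟨i, hi1, hi2⟩ := exists_nat_pow_near hH0 (by norm_num : (1 : ℝ) < 2)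
    rw [pow_succ] at hi2
    have k1 : Real.log X ^ (b + 1 + 39) ≤ 2 ^ i := by
      have e1 : Real.log X ^ (b + 1 + 39) ≤ Real.log x ^ (b + 1 + 39) :=
        pow_le_pow_left₀ hl0.le hlx _
      have e2 : Real.log x ^ (b + 41) = Real.log x ^ (b + 1 + 39) * Real.log x := by
        rw [← pow_succ]
      have e3 : 0 ≤ Real.log x ^ (b + 1 + 39) := by
        have : 0 ≤ Real.log x := by linarith
        positivity
      rw [e2] at hH1
      nlinarith
    have k2 : (2 : ℝ) ^ i ≤ X := by linarith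
    have k3 : i < I + 1 := by
      have e1 : (i : ℝ) * Real.log 2 ≤ Real.log X := by
        have := Real.log_le_log (by positivity) k2
        rwa [Real.log_pow] at this
      have e2 : (i : ℝ) ≤ Real.log X / Real.log 2 := by
        rwa [le_div_iff₀ hl2]
      have := Nat.le_floor e2
      omega
    have k4 : x ∉ E i := by
      intro hcon2
      apply hcon
      simp only [Set.mem_iUnion]
      refine ⟨i, Finset.mem_range.2 k3, ?_⟩
      rw [if_pos ⟨k1, k2⟩]
      exact hcon2
    have k5 : ∃ n : ℕ, 1 ≤ n ∧ x ≤ ord n ∧ ord n ≤ ord (n + 1) ∧ ord (n + 1) ≤ x + 2 ^ i ∧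
        ord (n + 1) - ord n ≤ gb C0 (2 ^ i) X := by
      by_contra hcon3
      exact k4 ⟨hx1, hx2, hcon3⟩
    obtain ⟨n, n1, n2, n3, n4, n5⟩ := k5
    exact ⟨n, n1, n2, n3, by linarith, n5.trans (gb_le hC0 hX100 hll hx1 hx2
      (one_le_pow₀ (by norm_num)) hi1 (by linarith))⟩
  refine (measure_mono hsub).trans ((measure_biUnion_finset_le _ _).trans ?_)
  have hterm : ∀ i ∈ Finset.range (I + 1),
      volume (if Real.log X ^ (b + 1 + 39) ≤ 2 ^ i ∧ (2 : ℝ) ^ i ≤ X then E i else ∅) ≤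
        ENNReal.ofReal (X / Real.log X ^ (b + 1)) := by
    intro i _
    split_ifs with hi
    · exact h X (2 ^ i) hXT hi.1 hi.2
    · rw [measure_empty]
      exact zero_le
  refine (Finset.sum_le_sum hterm).trans ?_
  rw [Finset.sum_const, Finset.card_range, nsmul_eq_mul, ← ENNReal.ofReal_natCast,
    ← ENNReal.ofReal_mul (Nat.cast_nonneg _)]
  apply ENNReal.ofReal_le_ofReal
  have h1 : (I : ℝ) ≤ Real.log X / Real.log 2 := Nat.floor_le (by positivity)
  have h2 : Real.log X / Real.log 2 ≤ 2 * Real.log X := by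
    rw [div_le_iff₀ hl2]
    nlinarith [Real.log_two_gt_d9]
  have h3 : ((I + 1 : ℕ) : ℝ) ≤ 3 * Real.log X := by
    push_cast
    linarith
  calc ((I + 1 : ℕ) : ℝ) * (X / Real.log X ^ (b + 1)) ≤
        3 * Real.log X * (X / Real.log X ^ (b + 1)) :=
        mul_le_mul_of_nonneg_right h3 (by positivity)
    _ = X * (3 / Real.log X ^ b) := by
        rw [pow_succ]
        field_simp

/-- from the precise bound to multiples of the mean spacing -/
lemma smaller_of {D : ℕ} {C θ c : ℝ} (hC : 0 < C) (hθ0 : 0 ≤ θ) (hc : 2 / (3 + θ) < c) :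
    ∃ X0 : ℝ, ∀ x : ℝ, X0 ≤ x → SmallGaps D C x → SmallerThan D θ c x := by
  have hθ3 : 0 < 3 + θ := by linarith
  have hc0 : 0 < c := lt_trans (by positivity) hc
  have hc1 : 1 < c * (3 + θ) / 2 := by
    rw [div_lt_iff₀ hθ3] at hc
    linarith
  have h1 : Tendsto (fun x : ℝ => Real.log (Real.log x) / Real.log x) atTop (𝓝 0) := by
    have e := Real.isLittleO_log_id_atTop.tendsto_div_nhds_zero
    exact e.comp Real.tendsto_log_atTop
  have h2 : Tendsto (fun x : ℝ => 1 + C * (Real.log (Real.log x) / Real.log x)) atTop (𝓝 1) := by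
    simpa using (h1.const_mul C).const_add 1
  obtain ⟨X0, hX0⟩ := eventually_atTop.1 (h2.eventually (gt_mem_nhds hc1))
  refine ⟨max X0 (Real.exp 1), fun x hx hs H hH1 hH2 => ?_⟩
  have hxe : Real.exp 1 ≤ x := (le_max_right _ _).trans hx
  have he : (2 : ℝ) < Real.exp 1 := by linarith [Real.exp_one_gt_d9]
  have hx0 : 0 < x := by linarith
  have hlx : 1 ≤ Real.log x := by rwa [Real.le_log_iff_exp_le hx0]
  have hxθ : 1 ≤ x ^ θ := Real.one_le_rpow (by linarith) hθ0
  have hlD : 1 ≤ Real.log x ^ D := one_le_pow₀ hlx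
  have hH3 : Real.log x ^ D ≤ H := by nlinarith
  obtain ⟨n, n1, n2, n3, n4, n5⟩ := hs H hH3 hH2
  refine ⟨n, n1, n2, n3, n4, lt_of_le_of_lt n5 ?_⟩
  have hxH : x ^ θ ≤ H := by nlinarith
  have hH0 : 0 < H := by linarith
  have hL : (3 + θ) * Real.log x ≤ Real.log (x ^ 3 * H) := by
    have e1 : Real.log (x ^ 3 * x ^ θ) ≤ Real.log (x ^ 3 * H) :=
      Real.log_le_log (by positivity) (mul_le_mul_of_nonneg_left hxH (by positivity))
    rw [Real.log_mul (by positivity) (by positivity), Real.log_pow, Real.log_rpow hx0] at e1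
    push_cast at e1
    linarith
  have hpi := Real.pi_pos
  have hlt := hX0 x ((le_max_left _ _).trans hx)
  have hpos : 0 ≤ 1 + C * (Real.log (Real.log x) / Real.log x) := by
    have : 0 ≤ Real.log (Real.log x) := Real.log_nonneg hlx
    positivity
  unfold gb
  calc 4 * Real.pi / Real.log (x ^ 3 * H) * (1 + C * (Real.log (Real.log x) / Real.log x)) ≤
        4 * Real.pi / ((3 + θ) * Real.log x) *
          (1 + C * (Real.log (Real.log x) / Real.log x)) := by
        apply mul_le_mul_of_nonneg_right _ hpos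
        exact div_le_div_of_nonneg_left (by positivity) (by positivity) hL
    _ < 4 * Real.pi / ((3 + θ) * Real.log x) * (c * (3 + θ) / 2) :=
        mul_lt_mul_of_pos_left hlt (by positivity)
    _ = c * (2 * Real.pi / Real.log x) := by
        field_simp
        ring

/-- **Theorem.** Small gaps between zeta zeros next to `t ^ κ_n`. -/
theorem result (a : ℝ) (ha : 0 < a) : ∃ (D : ℕ) (C : ℝ), 0 < C ∧
    ∀ κ : ℕ → ℝ, (∀ᶠ n : ℕ in atTop, (n : ℝ) ^ a ≤ κ n) → ∀ᵐ t : ℝ, 1 < t →
      (∃ n₀ : ℕ, ∀ n : ℕ, n₀ ≤ n → SmallGaps D C (t ^ κ n)) ∧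
      (∀ θ c : ℝ, 0 ≤ θ → 2 / (3 + θ) < c →
        ∃ n₀ : ℕ, ∀ n : ℕ, n₀ ≤ n → SmallerThan D θ c (t ^ κ n)) := by
  set b : ℕ := ⌈2 / a⌉₊ with hb
  have hab : 1 < a * b := by
    have h1 : 2 / a ≤ b := Nat.le_ceil _
    rw [div_le_iff₀ ha] at h1
    linarith
  obtain ⟨C, X0, hC, hvol⟩ := vol_bad b
  refine ⟨b + 41, C, hC, fun κ hκ => ?_⟩
  have hna : Tendsto (fun n : ℕ => (n : ℝ) ^ a) atTop atTop :=
    (tendsto_rpow_atTop ha).comp tendsto_natCast_atTop_atTop
  have hκt : Tendsto κ atTop atTop := tendsto_atTop_mono' _ hκ hna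
  have main : ∀ᵐ t : ℝ, 1 < t → ∃ n₀ : ℕ, ∀ n : ℕ, n₀ ≤ n →
      t ^ κ n ∉ (fun _ : ℕ => {x : ℝ | ¬ SmallGaps (b + 41) C x}) n := by
    refine Pool.Agent.X16.ZP.ae_notMem _ κ (hκt.eventually (eventually_ge_atTop 1)) fun α hα => ?_
    have hlα : 0 < Real.log α := Real.log_pos hα
    refine ⟨fun n : ℕ => 3 / Real.log α ^ b * (1 / (n : ℝ) ^ (a * b)), fun n => by positivity,
      (Real.summable_one_div_nat_rpow.2 hab).mul_left _, ?_⟩
    have hαt : Tendsto (fun n : ℕ => α ^ κ n) atTop atTop :=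
      (tendsto_rpow_atTop_of_base_gt_one α hα).comp hκt
    filter_upwards [hκ, hαt.eventually (eventually_ge_atTop X0), eventually_ge_atTop 1]
      with n h1 h2 h3 X hX
    refine (hvol X (h2.trans hX)).trans (ENNReal.ofReal_le_ofReal ?_)
    have hn0 : (0 : ℝ) < n := by exact_mod_cast h3
    have hna0 : 0 < (n : ℝ) ^ a := Real.rpow_pos_of_pos hn0 a
    have hακ : 0 < α ^ κ n := Real.rpow_pos_of_pos (by linarith) _
    have hX0 : 0 < X := by linarith
    have h4 : (n : ℝ) ^ a * Real.log α ≤ Real.log X := by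
      calc (n : ℝ) ^ a * Real.log α ≤ κ n * Real.log α := mul_le_mul_of_nonneg_right h1 hlα.le
        _ = Real.log (α ^ κ n) := (Real.log_rpow (by linarith) _).symm
        _ ≤ Real.log X := Real.log_le_log hακ hX
    have h5 : ((n : ℝ) ^ a * Real.log α) ^ b ≤ Real.log X ^ b :=
      pow_le_pow_left₀ (by positivity) h4 b
    have h6 : ((n : ℝ) ^ a * Real.log α) ^ b = (n : ℝ) ^ (a * b) * Real.log α ^ b := by
      rw [mul_pow, Real.rpow_mul hn0.le, Real.rpow_natCast]
    have hnab : 0 < (n : ℝ) ^ (a * b) := Real.rpow_pos_of_pos hn0 _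
    apply mul_le_mul_of_nonneg_left _ hX0.le
    calc 3 / Real.log X ^ b ≤ 3 / ((n : ℝ) ^ (a * b) * Real.log α ^ b) := by
          rw [← h6]
          exact div_le_div_of_nonneg_left (by norm_num) (by positivity) h5
      _ = 3 / Real.log α ^ b * (1 / (n : ℝ) ^ (a * b)) := by
          field_simp
  filter_upwards [main] with t ht ht1
  obtain ⟨n₀, hn⟩ := ht ht1
  have hs : ∀ n : ℕ, n₀ ≤ n → SmallGaps (b + 41) C (t ^ κ n) := by
    intro n hn1
    by_contra hcon
    exact hn n hn1 hcon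
  refine ⟨⟨n₀, hs⟩, fun θ c hθ hc => ?_⟩
  obtain ⟨X1, hX1⟩ := smaller_of (D := b + 41) hC hθ hc
  have htt : Tendsto (fun n : ℕ => t ^ κ n) atTop atTop :=
    (tendsto_rpow_atTop_of_base_gt_one t ht1).comp hκt
  obtain ⟨n₁, hn₁⟩ := eventually_atTop.1 (htt.eventually (eventually_ge_atTop X1))
  exact ⟨max n₀ n₁, fun n hn2 => hX1 _ (hn₁ n ((le_max_right _ _).trans hn2))
    (hs n ((le_max_left _ _).trans hn2))⟩

end Pool.Agent.Results.MP_ca0a54_nt.SmallGapsAtPowers
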